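import Mathlib.GroupTheory.PresentedGroup
import Mathlib.GroupTheory.Commutator.Basic
import Mathlib.Algebra.Group.Subgroup.Lattice
import Mathlib.Tactic

/-!
# The Grigorchuk group is a quotient of the genus-2 surface group

The generators `b` and `c` of the Grigorchuk group commute, so `[b, c] [a, 1] = 1` and
`b, c, a, 1` generate the group.  We record the full statement: the Grigorchuk group is a quotient
of the surface group of genus `g` if and only if `g ≥ 2`.
-/

namespace Pool.Agent.Results.MP_a9f5dc_al.QuotientGenusTwo

open scoped commutatorElement

/-- Names of the four generators. -/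
inductive Gen : Type
  | a | b | c | d

/-- The action of the four generators on the words over `{0, 1}` (`false` is `0`, `true` is `1`):
`a(0w) = 1w`, `a(1w) = 0w`, `b(0w) = 0 a(w)`, `b(1w) = 1 c(w)`, `c(0w) = 0 a(w)`,
`c(1w) = 1 d(w)`, `d(0w) = 0 w`, `d(1w) = 1 b(w)`. -/
def act : Gen → List Bool → List Bool
  | _, [] => []
  | .a, x :: w => (!x) :: w
  | .b, false :: w => false :: act .a w
  | .b, true :: w => true :: act .c w
  | .c, false :: w => false :: act .a w
  | .c, true :: w => true :: act .d w
  | .d, false :: w => false :: w
  | .d, true :: w => true :: act .b w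

theorem act_act (g : Gen) (w : List Bool) : act g (act g w) = w := by
  induction w generalizing g with
  | nil => cases g <;> simp [act]
  | cons x w ih =>
    cases g <;> cases x <;> simp [act, ih]

/-- The generators as permutations of the set of vertices of the binary tree. -/
def gen (g : Gen) : Equiv.Perm (List Bool) where
  toFun := act g
  invFun := act g
  left_inv := act_act g
  right_inv := act_act g

/-- The Grigorchuk group: the group of permutations of the vertices of the binary tree
generated by `a`, `b`, `c`, `d`. -/
def Grigorchuk : Subgroup (Equiv.Perm (List Bool)) :=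
  Subgroup.closure (Set.range gen)

/-- The fundamental group of the closed orientable surface of genus `g`: generators
`x_i = (i, false)` and `y_i = (i, true)`, `i < g`, and the single relation
`[x_1, y_1] ⋯ [x_g, y_g] = 1`. -/
abbrev SurfaceGroup (g : ℕ) : Type :=
  PresentedGroup ({(List.ofFn fun i : Fin g =>
    ⁅FreeGroup.of (i, false), FreeGroup.of (i, true)⁆).prod} : Set (FreeGroup (Fin g × Bool)))

theorem act_bc (w : List Bool) : act .b (act .c w) = act .d w := by
  have key : ∀ w : List Bool, act .b (act .c w) = act .d w ∧ act .c (act .d w) = act .b w ∧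
      act .d (act .b w) = act .c w := by
    intro w
    induction w with
    | nil => simp [act]
    | cons x w ih =>
      obtain ⟨h1, h2, h3⟩ := ih
      cases x <;> simp [act, act_act, h1, h2, h3]
  exact (key w).1

theorem act_cb (w : List Bool) : act .c (act .b w) = act .d w := by
  have key : ∀ w : List Bool, act .c (act .b w) = act .d w ∧ act .d (act .c w) = act .b w ∧
      act .b (act .d w) = act .c w := by
    intro w
    induction w with
    | nil => simp [act]
    | cons x w ih =>
      obtain ⟨h1, h2, h3⟩ := ih
      cases x <;> simp [act, act_act, h1, h2, h3]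
  exact (key w).1

theorem gen_bc : gen .b * gen .c = gen .d := Equiv.ext act_bc

theorem gen_cb : gen .c * gen .b = gen .d := Equiv.ext act_cb

/-- The generators as elements of the Grigorchuk group. -/
def el (g : Gen) : Grigorchuk := ⟨gen g, Subgroup.subset_closure ⟨g, rfl⟩⟩

theorem el_bc : el .b * el .c = el .d := Subtype.ext gen_bc

theorem el_cb : el .c * el .b = el .d := Subtype.ext gen_cb

theorem comm_bc : ⁅el .b, el .c⁆ = 1 := by
  rw [commutatorElement_eq_one_iff_mul_comm, el_bc, el_cb]

theorem not_comm : ¬ ∀ x y : Grigorchuk, x * y = y * x := by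
  intro h
  have h1 := congrArg Subtype.val (h (el .a) (el .b))
  have h2 := congrArg (fun e : Equiv.Perm (List Bool) => e [false, false]) h1
  have h3 : act .a (act .b [false, false]) = act .b (act .a [false, false]) := h2
  simp [act] at h3

theorem closure_el : Subgroup.closure (Set.range el) = ⊤ := by
  have h := Subgroup.closure_closure_coe_preimage (k := Set.range gen)
  have e : (((↑) : Subgroup.closure (Set.range gen) → Equiv.Perm (List Bool)) ⁻¹' Set.range gen)
      = Set.range el := by
    ext x
    constructor
    · rintro ⟨g, hg⟩
      exact ⟨g, Subtype.ext hg⟩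
    · rintro ⟨g, rfl⟩
      exact ⟨g, rfl⟩
  rw [e] at h
  exact h

/-- The images of the generators of the surface group. -/
def img (g : ℕ) (p : Fin g × Bool) : Grigorchuk :=
  if p.1.val = 0 then (if p.2 then el .c else el .b)
  else if p.1.val = 1 then (if p.2 then 1 else el .a) else 1

theorem img_rel (g : ℕ) : ∀ r ∈ ({(List.ofFn fun i : Fin g =>
    ⁅FreeGroup.of (i, false), FreeGroup.of (i, true)⁆).prod} : Set (FreeGroup (Fin g × Bool))),
    FreeGroup.lift (img g) r = 1 := by
  rintro r rfl
  rw [map_list_prod]
  apply List.prod_eq_one
  intro x hx
  rw [List.map_ofFn, List.mem_ofFn] at hx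
  obtain ⟨i, rfl⟩ := hx
  simp only [Function.comp_apply, map_commutatorElement, FreeGroup.lift_apply_of, img]
  by_cases h0 : i.val = 0
  · simp [h0, comm_bc]
  · by_cases h1 : i.val = 1
    · simp [h1]
    · simp [h0, h1]

/-- The Grigorchuk group is a quotient of the fundamental group of the closed orientable surface
of genus `g` exactly when `g ≥ 2`; in particular it is a quotient of the genus-2 surface group. -/
theorem result (g : ℕ) :
    (∃ f : SurfaceGroup g →* Grigorchuk, Function.Surjective f) ↔ 2 ≤ g := by
  constructor
  · rintro ⟨f, hf⟩
    by_contra hg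
    have hcomm : ∀ x y : SurfaceGroup g, x * y = y * x := by
      have h1 : ∀ p q : Fin g × Bool,
          Commute (PresentedGroup.of p : SurfaceGroup g) (PresentedGroup.of q) := by
        rintro ⟨i, s⟩ ⟨j, t⟩
        have hg1 : g = 1 := by
          have := i.isLt
          omega
        subst hg1
        have hi : i = 0 := Subsingleton.elim _ _
        have hj : j = 0 := Subsingleton.elim _ _
        subst hi hj
        have hrel : (PresentedGroup.mk _ ((List.ofFn fun i : Fin 1 =>
            ⁅FreeGroup.of (i, false), FreeGroup.of (i, true)⁆).prod) : SurfaceGroup 1) = 1 :=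
          PresentedGroup.one_of_mem rfl
        have hc : Commute (PresentedGroup.of ((0 : Fin 1), false) : SurfaceGroup 1)
            (PresentedGroup.of ((0 : Fin 1), true)) := by
          have h2 : ⁅(PresentedGroup.of ((0 : Fin 1), false) : SurfaceGroup 1),
              (PresentedGroup.of ((0 : Fin 1), true) : SurfaceGroup 1)⁆ = 1 := by
            have e : (List.ofFn fun i : Fin 1 =>
              ⁅FreeGroup.of (i, false), FreeGroup.of (i, true)⁆).prod
              = ⁅FreeGroup.of ((0 : Fin 1), false), FreeGroup.of ((0 : Fin 1), true)⁆ := by simp
            rw [e, map_commutatorElement] at hrel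
            exact hrel
          exact commutatorElement_eq_one_iff_commute.mp h2
        cases s <;> cases t
        · exact Commute.refl _
        · exact hc
        · exact hc.symm
        · exact Commute.refl _
      have hcl : Subgroup.closure (Set.range
          (PresentedGroup.of : Fin g × Bool → SurfaceGroup g)) = ⊤ :=
        PresentedGroup.closure_range_of _
      have hcen : ∀ p : Fin g × Bool,
          (PresentedGroup.of p : SurfaceGroup g) ∈ Subgroup.center (SurfaceGroup g) := by
        intro p
        rw [Subgroup.mem_center_iff]
        have : (⊤ : Subgroup (SurfaceGroup g)) ≤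
            Subgroup.centralizer {(PresentedGroup.of p : SurfaceGroup g)} := by
          rw [← hcl, Subgroup.closure_le]
          rintro _ ⟨q, rfl⟩
          rw [SetLike.mem_coe, Subgroup.mem_centralizer_singleton_iff]
          exact h1 q p
        intro x
        exact Subgroup.mem_centralizer_singleton_iff.mp (this (Subgroup.mem_top x))
      have htop : (⊤ : Subgroup (SurfaceGroup g)) ≤ Subgroup.center (SurfaceGroup g) := by
        rw [← hcl, Subgroup.closure_le]
        rintro _ ⟨q, rfl⟩
        exact hcen q
      intro x y
      exact (Subgroup.mem_center_iff.mp (htop (Subgroup.mem_top y)) x)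
    apply not_comm
    intro x y
    obtain ⟨x', rfl⟩ := hf x
    obtain ⟨y', rfl⟩ := hf y
    rw [← map_mul, ← map_mul, hcomm]
  · intro hg
    refine ⟨PresentedGroup.toGroup (img_rel g), ?_⟩
    rw [← MonoidHom.range_eq_top, eq_top_iff, ← closure_el, Subgroup.closure_le]
    have hb : el .b ∈ (PresentedGroup.toGroup (img_rel g)).range := by
      refine ⟨PresentedGroup.of (⟨0, by omega⟩, false), ?_⟩
      rw [PresentedGroup.toGroup.of]
      simp [img]
    have hc : el .c ∈ (PresentedGroup.toGroup (img_rel g)).range := by
      refine ⟨PresentedGroup.of (⟨0, by omega⟩, true), ?_⟩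
      rw [PresentedGroup.toGroup.of]
      simp [img]
    have ha : el .a ∈ (PresentedGroup.toGroup (img_rel g)).range := by
      refine ⟨PresentedGroup.of (⟨1, by omega⟩, false), ?_⟩
      rw [PresentedGroup.toGroup.of]
      simp [img]
    rintro _ ⟨x, rfl⟩
    cases x with
    | a => exact ha
    | b => exact hb
    | c => exact hc
    | d =>
      rw [SetLike.mem_coe, ← el_bc]
      exact Subgroup.mul_mem _ hb hc

end Pool.Agent.Results.MP_a9f5dc_al.QuotientGenusTwo
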